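import Mathlib

/-!
# A countably categorical Jordan nilring that is not solvable

The ring is the vector space of dimension 3 over the field with two elements, with the cross
product.  All squares are zero, the product is commutative, and every element is a product.
-/

set_option autoImplicit false

open FirstOrder FirstOrder.Language

namespace Pool.Agent.Results.MP_bd8d3e_al.JordanNilring

/-! ### Definitions -/

/-- The function symbols of the language of rings without unit: `0`, `-`, `+`, `·`. -/
inductive RFun : ℕ → Type
  | zero : RFun 0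
  | neg : RFun 1
  | add : RFun 2
  | mul : RFun 2

/-- The language `{+, -, 0, ·}`. -/
def L : Language := ⟨RFun, fun _ => Empty⟩

/-- A (nonassociative, nonunital) ring as a structure for the language. -/
def ringStr (A : Type) [NonUnitalNonAssocRing A] : L.Structure A where
  funMap := fun {n} f x => match n, f, x with
    | _, RFun.zero, _ => 0
    | _, RFun.neg, x => - x 0
    | _, RFun.add, x => x 0 + x 1
    | _, RFun.mul, x => x 0 * x 1
  RelMap := fun {_} r _ => nomatch r

/-- The ring `A` is countably categorical: its complete first-order theory has exactly one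
countable (finite or infinite) model up to isomorphism. -/
def CountablyCategorical (A : Type) [NonUnitalNonAssocRing A] : Prop :=
  letI := ringStr A
  ∃ (M : Type) (_ : L.Structure M), Countable M ∧ M ⊨ L.completeTheory A ∧
    ∀ (N : Type) (_ : L.Structure N), Countable N → N ⊨ L.completeTheory A → Nonempty (M ≃[L] N)

variable {A : Type}

/-- Jordan rings. -/
def IsJordan (A : Type) [NonUnitalNonAssocRing A] : Prop :=
  (∀ x y : A, x * y = y * x) ∧ ∀ x y : A, ((x * x) * y) * x = (x * x) * (y * x)

/-- `pw x n` is the right-normed power `x ^ (n + 1)`. -/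
def pw [NonUnitalNonAssocRing A] (x : A) : ℕ → A
  | 0 => x
  | n + 1 => pw x n * x

/-- Nilrings. -/
def IsNilring (A : Type) [NonUnitalNonAssocRing A] : Prop := ∀ x : A, ∃ n : ℕ, pw x n = 0

/-- The derived powers. -/
def derivedPower (A : Type) [NonUnitalNonAssocRing A] : ℕ → AddSubgroup A
  | 0 => ⊤
  | k + 1 => AddSubgroup.closure
      {z : A | ∃ u ∈ derivedPower A k, ∃ v ∈ derivedPower A k, u * v = z}

/-- Solvable rings. -/
def IsSolvableRing (A : Type) [NonUnitalNonAssocRing A] : Prop := ∃ k : ℕ, derivedPower A k = ⊥

/-! ### Finite structures are categorical -/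

section Fin

variable (A) [L.Structure A] [Finite A]

/-- the diagram of the function `f` -/
noncomputable def opF {n : ℕ} (f : L.Functions n) : L.Formula (Empty ⊕ A) :=
  Formula.iInf (fun x : Fin n → A =>
    Term.equal (Term.func f (fun i => Term.var (Sum.inr (x i))))
      (Term.var (Sum.inr (Structure.funMap f x))))

/-- the variables are different -/
noncomputable def injF : L.Formula (Empty ⊕ A) :=
  open Classical in
  Formula.iInf (fun p : A × A => if p.1 = p.2 then ⊤ else
    (Term.equal (Term.var (Sum.inr p.1)) (Term.var (Sum.inr p.2))).not)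

/-- every element is one of the variables -/
noncomputable def surF : L.Formula (Empty ⊕ A) :=
  Formula.iAlls Unit (Formula.iSup (fun a : A =>
    Term.equal (Term.var (Sum.inr ())) (Term.var (Sum.inl (Sum.inr a)))))

/-- a sentence describing the finite structure `A` -/
noncomputable def sig : L.Sentence :=
  Formula.iExs A (injF A ⊓ (surF A ⊓ (opF A RFun.zero ⊓ (opF A RFun.neg ⊓
    (opF A RFun.add ⊓ opF A RFun.mul)))))

variable {A}

theorem realize_opF {M : Type} [L.Structure M] {n : ℕ} (f : L.Functions n) (v : A → M)
    (w : Empty → M) :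
    (opF A f).Realize (Sum.elim w v) ↔
      ∀ x : Fin n → A, Structure.funMap f (fun i => v (x i)) = v (Structure.funMap f x) := by
  unfold opF
  rw [Formula.realize_iInf]
  refine forall_congr' fun x => ?_
  rw [Formula.realize_equal]
  rfl

theorem realize_injF {M : Type} [L.Structure M] (v : A → M) (w : Empty → M) :
    (injF A).Realize (Sum.elim w v) ↔ Function.Injective v := by
  classical
  unfold injF
  rw [Formula.realize_iInf]
  constructor
  · intro h a b hab
    by_contra hne
    have h1 := h (a, b)
    simp only [hne, if_false] at h1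
    rw [Formula.realize_not, Formula.realize_equal] at h1
    exact h1 hab
  · rintro h ⟨a, b⟩
    by_cases hab : a = b
    · simp [hab]
    · simp only [hab, if_false]
      rw [Formula.realize_not, Formula.realize_equal]
      intro h2
      exact hab (h h2)

theorem realize_surF {M : Type} [L.Structure M] (v : A → M) (w : Empty → M) :
    (surF A).Realize (Sum.elim w v) ↔ Function.Surjective v := by
  unfold surF
  rw [Formula.realize_iAlls]
  constructor
  · intro h m
    have h1 := h (fun _ => m)
    rw [Formula.realize_iSup] at h1
    obtain ⟨a, ha⟩ := h1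
    rw [Formula.realize_equal] at ha
    exact ⟨a, ha.symm⟩
  · intro h m
    rw [Formula.realize_iSup]
    obtain ⟨a, ha⟩ := h (m ())
    refine ⟨a, ?_⟩
    rw [Formula.realize_equal]
    exact ha.symm

theorem realize_sig {M : Type} [L.Structure M] :
    M ⊨ sig A ↔ ∃ v : A → M, Function.Injective v ∧ Function.Surjective v ∧
      ∀ (n : ℕ) (f : L.Functions n) (x : Fin n → A),
        Structure.funMap f (fun i => v (x i)) = v (Structure.funMap f x) := by
  unfold sig Sentence.Realize
  rw [Formula.realize_iExs]
  refine exists_congr fun v => ?_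
  simp only [Formula.realize_inf, realize_injF, realize_surF, realize_opF]
  constructor
  · rintro ⟨h1, h2, h3, h4, h5, h6⟩
    refine ⟨h1, h2, ?_⟩
    intro n f x
    cases f with
    | zero => exact h3 x
    | neg => exact h4 x
    | add => exact h5 x
    | mul => exact h6 x
  · rintro ⟨h1, h2, h3⟩
    exact ⟨h1, h2, h3 _ RFun.zero, h3 _ RFun.neg, h3 _ RFun.add, h3 _ RFun.mul⟩

theorem equiv_of_model {M : Type} [L.Structure M] (h : M ⊨ L.completeTheory A) :
    Nonempty (A ≃[L] M) := by
  have h1 : A ⊨ sig A := realize_sig.2 ⟨id, Function.injective_id, Function.surjective_id,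
    fun _ _ _ => rfl⟩
  have h2 : M ⊨ sig A := h.realize_of_mem _ h1
  obtain ⟨v, h3, h4, h5⟩ := realize_sig.1 h2
  refine ⟨⟨Equiv.ofBijective v ⟨h3, h4⟩, ?_, ?_⟩⟩
  · intro n f x
    exact (h5 n f x).symm
  · intro n r
    exact nomatch r

end Fin

theorem categorical_of_finite (A : Type) [NonUnitalNonAssocRing A] [Finite A] :
    CountablyCategorical A := by
  letI := ringStr A
  exact ⟨A, ringStr A, inferInstance, inferInstance, fun N _ _ h => equiv_of_model h⟩

/-! ### The example -/

/-- the vector space of dimension 3 over the field with two elements -/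
def J : Type := Fin 3 → ZMod 2

instance : AddCommGroup J := inferInstanceAs (AddCommGroup (Fin 3 → ZMod 2))

instance : DecidableEq J := inferInstanceAs (DecidableEq (Fin 3 → ZMod 2))

instance : Fintype J := inferInstanceAs (Fintype (Fin 3 → ZMod 2))

/-- the cross product -/
instance : Mul J := ⟨fun x y =>
  ![x 1 * y 2 - x 2 * y 1, x 2 * y 0 - x 0 * y 2, x 0 * y 1 - x 1 * y 0]⟩

instance : NonUnitalNonAssocRing J where
  left_distrib := by decide +kernel
  right_distrib := by decide +kernel
  zero_mul := by decide +kernel
  mul_zero := by decide +kernel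

theorem J_derived (k : ℕ) : derivedPower J k = ⊤ := by
  induction k with
  | zero => rfl
  | succ k ih =>
    rw [derivedPower, ih, eq_top_iff]
    intro z _
    apply AddSubgroup.subset_closure
    have h : ∀ z : J, ∃ u v : J, u * v = z := by decide +kernel
    obtain ⟨u, v, h⟩ := h z
    exact ⟨u, AddSubgroup.mem_top _, v, AddSubgroup.mem_top _, h⟩

/-- There is a countably categorical Jordan nilring (with 8 elements) that is not solvable. -/
theorem result : ∃ (J : Type) (_ : NonUnitalNonAssocRing J), Nat.card J = 8 ∧
    IsJordan J ∧ IsNilring J ∧ CountablyCategorical J ∧ ¬ IsSolvableRing J := by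
  refine ⟨J, inferInstance, ?_, ⟨by decide +kernel, by decide +kernel⟩, fun x => ⟨1, ?_⟩,
    categorical_of_finite J, ?_⟩
  · rw [Nat.card_eq_fintype_card]
    decide +kernel
  · have h : ∀ x : J, x * x = 0 := by decide +kernel
    exact h x
  · rintro ⟨k, hk⟩
    rw [J_derived] at hk
    have h0 : ∃ z : J, z ≠ 0 := by decide +kernel
    obtain ⟨z, hz⟩ := h0
    refine hz (AddSubgroup.mem_bot.1 ?_)
    rw [← hk]
    exact AddSubgroup.mem_top _

end Pool.Agent.Results.MP_bd8d3e_al.JordanNilring
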